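import Pool.Agent.W719.AX.Gen

/-! Project AX, part UX2: exponential and logarithm of uniform asymptotic expansions. -/

set_option autoImplicit false

namespace Pool.Agent.W67.AX

open Finset Filter Topology Metric
open Pool.Agent.W719.AX

variable {E : Type}

theorem congr' {Y Z : ℕ → E → ℂ} {A : ℕ → E → ℂ} {S : Set E}
    (h : ∀ᶠ N : ℕ in atTop, ∀ p ∈ S, Y N p = Z N p) (hY : UX Y A S) : UX Z A S := by
  intro K
  obtain ⟨C, hC⟩ := hY K
  refine ⟨C, ?_⟩
  filter_upwards [h, hC] with N h1 h2 p hp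
  rw [← h1 p hp]
  exact h2 p hp

theorem uxadd {Y Z : ℕ → E → ℂ} {A B : ℕ → E → ℂ} {S : Set E}
    (hY : UX Y A S) (hZ : UX Z B S) :
    UX (fun N p => Y N p + Z N p) (fun k p => A k p + B k p) S := by
  intro K
  obtain ⟨C, hC⟩ := hY K
  obtain ⟨D, hD⟩ := hZ K
  refine ⟨C + D, ?_⟩
  filter_upwards [hC, hD] with N h1 h2 p hp
  have e : Y N p + Z N p - ∑ k ∈ range K, (A k p + B k p) / (N : ℂ) ^ k =
      (Y N p - ∑ k ∈ range K, A k p / (N : ℂ) ^ k) +
        (Z N p - ∑ k ∈ range K, B k p / (N : ℂ) ^ k) := by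
    simp only [add_div, Finset.sum_add_distrib]
    ring
  rw [e, add_div]
  exact (norm_add_le _ _).trans (add_le_add (h1 p hp) (h2 p hp))

theorem uxcmul {Y : ℕ → E → ℂ} {A : ℕ → E → ℂ} {S : Set E} (c : E → ℂ) (M : ℝ)
    (hc : ∀ p ∈ S, ‖c p‖ ≤ M) (hY : UX Y A S) :
    UX (fun N p => c p * Y N p) (fun k p => c p * A k p) S := by
  intro K
  obtain ⟨C, hC⟩ := hY K
  refine ⟨M * C, ?_⟩
  filter_upwards [hC] with N h1 p hp
  have e : c p * Y N p - ∑ k ∈ range K, c p * A k p / (N : ℂ) ^ k =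
      c p * (Y N p - ∑ k ∈ range K, A k p / (N : ℂ) ^ k) := by
    rw [mul_sub, Finset.mul_sum]
    simp only [mul_div_assoc]
  rw [e, norm_mul, mul_div_assoc]
  exact mul_le_mul (hc p hp) (h1 p hp) (norm_nonneg _) ((norm_nonneg _).trans (hc p hp))

theorem uxconst {S : Set E} (c : E → ℂ) (M : ℝ) (hc : ∀ p ∈ S, ‖c p‖ ≤ M) :
    UX (fun _ p => c p) (fun k p => if k = 0 then c p else 0) S := by
  intro K
  refine ⟨if K = 0 then M else 0, ?_⟩
  filter_upwards with N p hp
  rcases K with _ | K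
  · simp [hc p hp]
  · rw [Finset.sum_range_succ']
    simp

/-- subtracting the leading coefficient -/
theorem uxsub {Y : ℕ → E → ℂ} {A : ℕ → E → ℂ} {S : Set E} (M : ℝ)
    (hc : ∀ p ∈ S, ‖A 0 p‖ ≤ M) (hY : UX Y A S) :
    UX (fun N p => Y N p - A 0 p) (fun k p => if k = 0 then 0 else A k p) S := by
  have h1 := uxconst (S := S) (fun p => - A 0 p) M (by intro p hp; rw [norm_neg]; exact hc p hp)
  have h2 := uxadd hY h1
  have e1 : (fun (N : ℕ) (p : E) => Y N p + -A 0 p) = fun N p => Y N p - A 0 p := by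
    funext N p; ring
  have e2 : (fun (k : ℕ) (p : E) => A k p + if k = 0 then -A 0 p else 0) =
      fun k p => if k = 0 then 0 else A k p := by
    funext k p
    by_cases hk : k = 0
    · subst hk; simp
    · simp [hk]
  rw [e1, e2] at h2
  exact h2

/-- the coefficients of the powers -/
noncomputable def P (a : ℕ → E → ℂ) : ℕ → ℕ → E → ℂ
  | 0 => fun k _ => if k = 0 then 1 else 0
  | j + 1 => cv a (P a j)

theorem P_zero (a : ℕ → E → ℂ) (p : E) (ha : a 0 p = 0) : ∀ j k, k < j → P a j k p = 0 := by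
  intro j
  induction j with
  | zero => intro k hk; omega
  | succ j ih =>
    intro k hk
    show cv a (P a j) k p = 0
    unfold cv
    refine Finset.sum_eq_zero ?_
    intro i hi
    rw [Finset.mem_range] at hi
    rcases i with _ | i
    · rw [ha, zero_mul]
    · rw [ih (k - (i + 1)) (by omega), mul_zero]

theorem uxpow (hm : S_UXMUL) {R : ℕ → E → ℂ} {a : ℕ → E → ℂ} {S : Set E} (h : UX R a S) :
    ∀ j, UX (fun N p => R N p ^ j) (P a j) S := by
  intro j
  induction j with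
  | zero =>
    have := uxconst (S := S) (fun _ => (1 : ℂ)) 1 (by intro p _; simp)
    have e1 : (fun (N : ℕ) (p : E) => R N p ^ 0) = fun _ _ => (1 : ℂ) := by
      funext N p; simp
    rw [e1]
    exact this
  | succ j ih =>
    have h1 := hm E R (fun N p => R N p ^ j) a (P a j) S h ih
    have e1 : (fun (N : ℕ) (p : E) => R N p ^ (j + 1)) = fun N p => R N p * R N p ^ j := by
      funext N p; rw [pow_succ']
    rw [e1]
    exact h1

/-- composition with a function with a Taylor expansion at `0` -/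
theorem uxcomp (hm : S_UXMUL) {R : ℕ → E → ℂ} {a : ℕ → E → ℂ} {S : Set E} (h : UX R a S)
    (ha : ∀ p, a 0 p = 0) (f : ℂ → ℂ) (α : ℕ → ℂ)
    (hf : ∀ K : ℕ, ∃ C r : ℝ, 0 < r ∧ ∀ x : ℂ, ‖x‖ ≤ r →
      ‖f x - ∑ j ∈ range K, α j * x ^ j‖ ≤ C * ‖x‖ ^ K) :
    UX (fun N p => f (R N p)) (fun k p => ∑ j ∈ range (k + 1), α j * P a j k p) S := by
  intro K
  obtain ⟨C1, r, hr, hf1⟩ := hf K
  obtain ⟨C2, hC2⟩ := h 1
  choose D hD using fun j => uxpow hm h j K
  have hD' : ∀ᶠ N : ℕ in atTop, ∀ j ∈ range K, ∀ p ∈ S,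
      ‖R N p ^ j - ∑ k ∈ range K, P a j k p / (N : ℂ) ^ k‖ ≤ D j / (N : ℝ) ^ K := by
    rw [Filter.eventually_all_finset]
    intro j _
    exact hD j
  have hsmall : ∀ᶠ N : ℕ in atTop, |C2| / (N : ℝ) ≤ r := by
    have := tendsto_const_div_atTop_nhds_zero_nat |C2|
    exact (this.eventually (gt_mem_nhds hr)).mono fun N hN => le_of_lt hN
  refine ⟨|C1| * |C2| ^ K + ∑ j ∈ range K, ‖α j‖ * D j, ?_⟩
  filter_upwards [hC2, hD', hsmall, eventually_gt_atTop 0] with N h1 h2 h3 hN p hp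
  have hNpos : (0 : ℝ) < N := by exact_mod_cast hN
  have hR : ‖R N p‖ ≤ |C2| / N := by
    have := h1 p hp
    rw [Finset.sum_range_one] at this
    simp only [pow_zero, ha p, zero_div, sub_zero, pow_one] at this
    exact this.trans (div_le_div_of_nonneg_right (le_abs_self _) hNpos.le)
  have hT := hf1 (R N p) (hR.trans h3)
  have hT2 : ‖f (R N p) - ∑ j ∈ range K, α j * R N p ^ j‖ ≤ |C1| * |C2| ^ K / (N : ℝ) ^ K := by
    refine hT.trans ?_
    rw [mul_div_assoc, ← div_pow]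
    exact mul_le_mul (le_abs_self _) (pow_le_pow_left₀ (norm_nonneg _) hR K) (by positivity)
      (abs_nonneg _)
  have hsum : ∑ k ∈ range K, (∑ j ∈ range (k + 1), α j * P a j k p) / (N : ℂ) ^ k =
      ∑ j ∈ range K, α j * ∑ k ∈ range K, P a j k p / (N : ℂ) ^ k := by
    have e1 : ∀ k ∈ range K, (∑ j ∈ range (k + 1), α j * P a j k p) / (N : ℂ) ^ k =
        ∑ j ∈ range K, α j * (P a j k p / (N : ℂ) ^ k) := by
      intro k hk
      rw [Finset.mem_range] at hk
      rw [Finset.sum_div]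
      have e2 : ∑ j ∈ range (k + 1), α j * P a j k p / (N : ℂ) ^ k =
          ∑ j ∈ range (k + 1), α j * (P a j k p / (N : ℂ) ^ k) :=
        Finset.sum_congr rfl fun j _ => by rw [mul_div_assoc]
      rw [e2]
      refine Finset.sum_subset (Finset.range_mono (by omega)) ?_
      intro j _ hj
      rw [Finset.mem_range] at hj
      rw [P_zero a p (ha p) j k (by omega), zero_div, mul_zero]
    rw [Finset.sum_congr rfl e1, Finset.sum_comm]
    exact Finset.sum_congr rfl fun j _ => by rw [Finset.mul_sum]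
  have e3 : f (R N p) - ∑ k ∈ range K, (∑ j ∈ range (k + 1), α j * P a j k p) / (N : ℂ) ^ k =
      (f (R N p) - ∑ j ∈ range K, α j * R N p ^ j) +
        ∑ j ∈ range K, α j * (R N p ^ j - ∑ k ∈ range K, P a j k p / (N : ℂ) ^ k) := by
    rw [hsum]
    simp only [mul_sub, Finset.sum_sub_distrib]
    ring
  rw [e3, add_div, Finset.sum_div]
  refine (norm_add_le _ _).trans (add_le_add hT2 ?_)
  refine (norm_sum_le _ _).trans (Finset.sum_le_sum ?_)
  intro j hj
  rw [norm_mul, mul_div_assoc]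
  exact mul_le_mul_of_nonneg_left (h2 j hj p hp) (norm_nonneg _)

theorem expT (K : ℕ) : ∃ C r : ℝ, 0 < r ∧ ∀ x : ℂ, ‖x‖ ≤ r →
      ‖Complex.exp x - ∑ j ∈ range K, ((j.factorial : ℂ)⁻¹) * x ^ j‖ ≤ C * ‖x‖ ^ K := by
  refine ⟨Real.exp 1, 1, one_pos, ?_⟩
  intro x hx
  have h1 := Complex.norm_exp_sub_sum_le_norm_mul_exp x K
  have e : ∑ j ∈ range K, ((j.factorial : ℂ)⁻¹) * x ^ j = ∑ m ∈ range K, x ^ m / m.factorial :=
    Finset.sum_congr rfl fun j _ => by rw [div_eq_mul_inv, mul_comm]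
  rw [e]
  refine h1.trans ?_
  rw [mul_comm]
  exact mul_le_mul_of_nonneg_right (Real.exp_le_exp.2 hx) (by positivity)

theorem logT (K : ℕ) : ∃ C r : ℝ, 0 < r ∧ ∀ x : ℂ, ‖x‖ ≤ r →
      ‖Complex.log (1 + x) - ∑ j ∈ range K, ((-1) ^ (j + 1) / (j : ℂ)) * x ^ j‖ ≤
        C * ‖x‖ ^ K := by
  refine ⟨2, 1 / 2, by norm_num, ?_⟩
  intro x hx
  have hx1 : ‖x‖ < 1 := by linarith
  have hinv : (1 - ‖x‖)⁻¹ ≤ 2 := by
    rw [inv_le_comm₀ (by linarith) (by norm_num)]
    linarith
  rcases K with _ | K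
  · have h1 := Complex.norm_log_sub_logTaylor_le 0 hx1
    have e : Complex.logTaylor (0 + 1) x = 0 := by
      simp [Complex.logTaylor]
    rw [e] at h1
    simp only [Finset.range_zero, Finset.sum_empty, pow_zero, mul_one]
    refine h1.trans ?_
    have h2 : ‖x‖ * (1 - ‖x‖)⁻¹ ≤ 1 * 2 :=
      mul_le_mul hx1.le hinv (inv_nonneg.2 (by linarith)) (by norm_num)
    simp only [zero_add, pow_one, Nat.cast_zero, div_one]
    linarith
  · have h1 := Complex.norm_log_sub_logTaylor_le K hx1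
    have e : ∑ j ∈ range (K + 1), ((-1) ^ (j + 1) / (j : ℂ)) * x ^ j =
        Complex.logTaylor (K + 1) x := by
      unfold Complex.logTaylor
      exact Finset.sum_congr rfl fun j _ => by rw [div_mul_eq_mul_div]
    rw [e]
    refine h1.trans ?_
    have h3 : (1 : ℝ) ≤ (K : ℝ) + 1 := by
      have : (0 : ℝ) ≤ K := Nat.cast_nonneg K
      linarith
    have h4 : 0 ≤ ‖x‖ ^ (K + 1) * (1 - ‖x‖)⁻¹ :=
      mul_nonneg (by positivity) (inv_nonneg.2 (by linarith))
    refine (div_le_self h4 h3).trans ?_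
    rw [mul_comm]
    exact mul_le_mul_of_nonneg_right hinv (by positivity)

theorem uxexp : S_UXBD → S_UXMUL → S_UXEXP := by
  intro hb hm E Y A S hY
  obtain ⟨M, hM⟩ := hb E Y A S hY 0
  have hR := uxsub M hM hY
  have h1 := uxcomp hm hR (fun p => by simp) Complex.exp (fun j => ((j.factorial : ℂ)⁻¹)) expT
  have h2 := uxcmul (fun p => Complex.exp (A 0 p)) (Real.exp M)
    (by
      intro p hp
      refine (Complex.norm_exp_le_exp_norm _).trans (Real.exp_le_exp.2 (hM p hp))) h1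
  refine ⟨_, congr' ?_ h2, ?_⟩
  · filter_upwards with N p hp
    rw [← Complex.exp_add]
    congr 1
    ring
  · intro p
    simp [P]

theorem uxlog : S_UXBD → S_UXMUL → S_UXLOG := by
  intro hb hm E Y L A S c hc hY hA hL
  obtain ⟨M, hM⟩ := hb E Y A S hY 0
  -- the leading coefficient is real and positive
  have hre : ∀ p ∈ S, (A 0 p).im = 0 ∧ 0 ≤ (A 0 p).re := by
    intro p hp
    obtain ⟨C, hC⟩ := hY 1
    have ht : Tendsto (fun N : ℕ => Y N p) atTop (𝓝 (A 0 p)) := by
      rw [tendsto_iff_norm_sub_tendsto_zero]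
      refine squeeze_zero' (Eventually.of_forall fun N => norm_nonneg _) ?_
        (tendsto_const_div_atTop_nhds_zero_nat C)
      filter_upwards [hC] with N h1
      have := h1 p hp
      rw [Finset.sum_range_one] at this
      simpa using this
    have hcl : IsClosed {z : ℂ | z.im = 0 ∧ 0 ≤ z.re} :=
      (isClosed_eq Complex.continuous_im continuous_const).inter
        (isClosed_le continuous_const Complex.continuous_re)
    refine hcl.mem_of_tendsto ht ?_
    filter_upwards [hL] with N hN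
    obtain ⟨h1, h2⟩ := hN p hp
    have h3 : L N p = ((L N p).re : ℂ) := by
      apply Complex.ext <;> simp [h1]
    have h4 : Y N p = ((Real.exp (L N p).re : ℝ) : ℂ) := by
      rw [← h2, h3, Complex.ofReal_exp]
      simp
    rw [h4]
    exact ⟨Complex.ofReal_im _, by rw [Complex.ofReal_re]; exact Real.exp_nonneg _⟩
  have hcoe : ∀ p ∈ S, A 0 p = ((A 0 p).re : ℂ) := by
    intro p hp
    apply Complex.ext <;> simp [(hre p hp).1]
  have hcre : ∀ p ∈ S, c ≤ (A 0 p).re := by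
    intro p hp
    have h1 := hA p hp
    rw [hcoe p hp, Complex.norm_real, Real.norm_eq_abs, abs_of_nonneg (hre p hp).2] at h1
    exact h1
  have hMre : ∀ p ∈ S, (A 0 p).re ≤ M := by
    intro p hp
    exact (Complex.re_le_norm _).trans (hM p hp)
  have hR0 := uxsub M hM hY
  have hR := uxcmul (fun p => (A 0 p)⁻¹) c⁻¹ (by
    intro p hp
    rw [norm_inv]
    exact inv_anti₀ hc (hA p hp)) hR0
  have h1 := uxcomp hm hR (fun p => by simp) (fun x => Complex.log (1 + x))
    (fun j => (-1) ^ (j + 1) / (j : ℂ)) logT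
  have h2 := uxconst (S := S) (fun p => Complex.log (A 0 p)) (max |Real.log c| |Real.log M|) (by
    intro p hp
    rw [hcoe p hp, ← Complex.ofReal_log (hre p hp).2, Complex.norm_real, Real.norm_eq_abs]
    refine abs_le_max_abs_abs ?_ ?_
    · exact Real.log_le_log hc (hcre p hp)
    · exact Real.log_le_log (lt_of_lt_of_le hc (hcre p hp)) (hMre p hp))
  refine ⟨_, congr' ?_ (uxadd h2 h1)⟩
  obtain ⟨C, hC⟩ := hR 1
  have hsmall : ∀ᶠ N : ℕ in atTop, C / (N : ℝ) < 1 / 2 :=
    (tendsto_const_div_atTop_nhds_zero_nat C).eventually (gt_mem_nhds (by norm_num))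
  filter_upwards [hL, hC, hsmall] with N hN h3 h4 p hp
  obtain ⟨h5, h6⟩ := hN p hp
  have h7 := h3 p hp
  rw [Finset.sum_range_one] at h7
  simp only [if_true, mul_zero, pow_zero, zero_div, sub_zero, pow_one] at h7
  have hLr : L N p = ((L N p).re : ℂ) := by
    apply Complex.ext <;> simp [h5]
  have hYr : Y N p = ((Real.exp (L N p).re : ℝ) : ℂ) := by
    rw [← h6, hLr, Complex.ofReal_exp]
    simp
  set α : ℝ := (A 0 p).re with hα
  have hαpos : 0 < α := lt_of_lt_of_le hc (hcre p hp)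
  have hAα : A 0 p = (α : ℂ) := hcoe p hp
  set y : ℝ := Real.exp (L N p).re with hy
  have hypos : 0 < y := Real.exp_pos _
  show Complex.log (A 0 p) + Complex.log (1 + (A 0 p)⁻¹ * (Y N p - A 0 p)) = L N p
  have e1 : 1 + (A 0 p)⁻¹ * (Y N p - A 0 p) = ((y / α : ℝ) : ℂ) := by
    rw [hAα, hYr]
    have : (α : ℂ) ≠ 0 := by exact_mod_cast hαpos.ne'
    push_cast
    field_simp
    ring
  rw [e1, hAα, ← Complex.ofReal_log hαpos.le, ← Complex.ofReal_log (by positivity),
    ← Complex.ofReal_add, Real.log_div hypos.ne' hαpos.ne', add_sub_cancel, hLr, hy, Real.log_exp]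

end Pool.Agent.W67.AX
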